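import Pool.Agent.Helper4.P11.StD
import Pool.Agent.Helper84.P11.D1

/-!
# Project P11 (levels `11^n`), module LdU: leading forms of `U`

Adapted from `Pool/Agent/Helper5/T7/M_LdU.lean` and `Pool/Agent/Helper99/W5/M_Ld.lean`.
-/

set_option autoImplicit false

namespace Pool.Agent.Helper34.P11

open Pool.Agent.Helper4.P11 Pool.Agent.Helper84.P11
open Pool.Agent.Helper2.P11 (Rel11)

section smul

variable {q q' : ℕ}

private theorem u_sub_smul (a b : ZMod 11) (X : Module.End (ZMod 11) (Fn11 q q')) :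
    (a - b) • X = a • X - b • X := by
  refine LinearMap.ext fun F => ?_
  funext x y
  change (a - b) * X F x y = a * X F x y - b * X F x y
  ring

private theorem u_sum_sub {ι : Type} (S : Finset ι) (a b : ι → ZMod 11)
    (X : ι → Module.End (ZMod 11) (Fn11 q q')) :
    ∑ t ∈ S, (a t - b t) • X t = ∑ t ∈ S, a t • X t - ∑ t ∈ S, b t • X t := by
  rw [← Finset.sum_sub_distrib]
  exact Finset.sum_congr rfl fun t _ => u_sub_smul _ _ _

end smul

section ops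

variable {r s : ℕ}

private theorem u_lw_zero (k : ℤ) : Lw (0 : Module.End (ZMod 11) (Fn11 (11 ^ r) (11 ^ s))) k := by
  intro d F _
  rw [LinearMap.zero_apply]
  exact Submodule.zero_mem _

private theorem u_lw_pow (O : Module.End (ZMod 11) (Fn11 (11 ^ r) (11 ^ s))) (k : ℕ)
    (h : Lw O k) (n : ℕ) : Lw (O ^ n) ((k * n : ℕ) : ℤ) := by
  obtain ⟨l1, l2, l3, l4, l5, l6, l7, l8, _⟩ := low0 r s
  induction n with
  | zero => simpa using l6
  | succ n ih =>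
    rw [pow_succ]
    have := l1 _ _ _ _ ih h
    have e : ((k * n : ℕ) : ℤ) + k = ((k * (n + 1) : ℕ) : ℤ) := by push_cast; ring
    rw [e] at this
    exact this

private theorem u_lw_sum {ι : Type} (S : Finset ι)
    (O : ι → Module.End (ZMod 11) (Fn11 (11 ^ r) (11 ^ s))) (k : ℤ) (h : ∀ i ∈ S, Lw (O i) k) :
    Lw (∑ i ∈ S, O i) k := by
  classical
  obtain ⟨l1, l2, _⟩ := low0 r s
  induction S using Finset.induction_on with
  | empty => simpa using u_lw_zero k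
  | insert a S ha ih =>
    rw [Finset.sum_insert ha]
    exact l2 _ _ _ (h a (Finset.mem_insert_self _ _)) (ih fun i hi => h i (Finset.mem_insert_of_mem hi))

/-- the monomials -/
private def uMon (w : Fin 10) (t : ℕ × ℕ × ℕ) : Module.End (ZMod 11) (Fn11 (11 ^ r) (11 ^ s)) :=
  oW w * (oB - 1) ^ t.1 * (oD - 1) ^ t.2.1 * (oA - 1) ^ t.2.2

private theorem u_lw_mon (w : Fin 10) (t : ℕ × ℕ × ℕ) :
    Lw (uMon w t : Module.End (ZMod 11) (Fn11 (11 ^ r) (11 ^ s))) ((t.1 + 10 * t.2.1 + t.2.2 : ℕ) : ℤ) := by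
  obtain ⟨l1, l2, l3, l4, l5, l6, l7, l8, _⟩ := low0 r s
  obtain ⟨n1, n2, n3, n4, n5, n6, n7, n8, n9, n10⟩ := nfa r s
  have h0 := u_lw_pow (oB - 1 : Module.End (ZMod 11) (Fn11 (11 ^ r) (11 ^ s))) 1
    (by exact_mod_cast n10) t.1
  have h1 := u_lw_pow (oD - 1 : Module.End (ZMod 11) (Fn11 (11 ^ r) (11 ^ s))) 10
    (by exact_mod_cast n6) t.2.1
  have h2 := u_lw_pow (oA - 1 : Module.End (ZMod 11) (Fn11 (11 ^ r) (11 ^ s))) 1
    (by exact_mod_cast n9) t.2.2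
  have h := l1 _ _ _ _ (l1 _ _ _ _ (l1 _ _ _ _ (n1 w) h0) h1) h2
  have e : (0 : ℤ) + ((1 * t.1 : ℕ) : ℤ) + ((10 * t.2.1 : ℕ) : ℤ) + ((1 * t.2.2 : ℕ) : ℤ)
      = ((t.1 + 10 * t.2.1 + t.2.2 : ℕ) : ℤ) := by push_cast; ring
  rw [e] at h
  exact h

/-- the expansion with prescribed coefficients -/
private theorem u_key (L : List Tm) (hL : ∀ t ∈ L, Gd t) (k : ℕ) (hk : k ≤ 13)
    (c : Fin 10 → ℕ × ℕ × ℕ → ZMod 11)
    (hc : ∀ w, ∀ t ∈ M13, t.1 + 10 * t.2.1 + t.2.2 < k →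
      ((cS L w t.1 t.2.1 t.2.2 : ℤ) : ZMod 11) = c w t) :
    Lw ((opL L : Module.End (ZMod 11) (Fn11 (11 ^ r) (11 ^ s))) -
      ∑ w, ∑ t ∈ M13, c w t • uMon w t) k := by
  obtain ⟨l1, l2, l3, l4, _⟩ := low0 r s
  have h0 : Lw ((opL L : Module.End (ZMod 11) (Fn11 (11 ^ r) (11 ^ s))) - ∑ w, ∑ t ∈ M13,
      ((cS L w t.1 t.2.1 t.2.2 : ℤ) : ZMod 11) •
      (uMon w t : Module.End (ZMod 11) (Fn11 (11 ^ r) (11 ^ s)))) 13 := by
    have := exp11 r s L hL
    unfold uMon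
    convert this using 2
  have h1 := l4 _ _ (k : ℤ) (by exact_mod_cast hk) h0
  have h2 : Lw (∑ w, ∑ t ∈ M13, (((cS L w t.1 t.2.1 t.2.2 : ℤ) : ZMod 11) - c w t) •
      (uMon w t : Module.End (ZMod 11) (Fn11 (11 ^ r) (11 ^ s)))) k := by
    refine u_lw_sum _ _ _ fun w _ => u_lw_sum _ _ _ fun t ht => ?_
    by_cases hw : t.1 + 10 * t.2.1 + t.2.2 < k
    · rw [hc w t ht hw, sub_self, zero_smul]
      exact u_lw_zero _
    · exact l3 _ _ _ (l4 _ _ (k : ℤ) (by exact_mod_cast not_lt.1 hw) (u_lw_mon w t))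
  have h3 := l2 _ _ _ h1 h2
  have e : ∑ w, ∑ t ∈ M13, (((cS L w t.1 t.2.1 t.2.2 : ℤ) : ZMod 11) - c w t) •
      (uMon w t : Module.End (ZMod 11) (Fn11 (11 ^ r) (11 ^ s))) =
      ∑ w, ∑ t ∈ M13, ((cS L w t.1 t.2.1 t.2.2 : ℤ) : ZMod 11) • uMon w t -
      ∑ w, ∑ t ∈ M13, c w t • uMon w t := by
    rw [← Finset.sum_sub_distrib]
    exact Finset.sum_congr rfl fun w _ => u_sum_sub M13 _ _ _
  rw [e, sub_add_sub_cancel] at h3
  exact h3

private theorem u_cast {S C : ℤ} (h : (11 : ℤ) ∣ S - C) : (S : ZMod 11) = (C : ZMod 11) := by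
  have h1 := (ZMod.intCast_zmod_eq_zero_iff_dvd (S - C) 11).2 (by exact_mod_cast h)
  push_cast at h1
  exact sub_eq_zero.1 h1

/-- A multiple of the relation vanishes. -/
private theorem u_mulrel (hr : TRll) (F : Fin 3 → Fn11 (11 ^ r) (11 ^ s)) (h : Rel11 F)
    (U : List Tm) (hU : ∀ t ∈ U, Gd t) (hR : ∀ f, ∀ t ∈ relM f, Gd t) :
    ∑ f : Fin 3, opL (sclL (-1) (mulL U (relM f))) (F f) = 0 := by
  obtain ⟨o1, o2, o3⟩ := opm r s
  have h1 : ∀ f : Fin 3, opL (sclL (-1) (mulL U (relM f))) (F f) =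
      ((-1 : ℤ) : ZMod 11) • (opL U) (opL (relM f) (F f)) := by
    intro f
    rw [o2, (o1 U (relM f) hU (hR f)).2]
    rfl
  rw [Finset.sum_congr rfl fun f _ => h1 f, ← Finset.smul_sum, ← map_sum, hr r s F h, map_zero,
    smul_zero]

/-- The monomial `oW 0 * (oB - 1) * (oA - 1)`. -/
private theorem u_lead (d : ℤ) (F : Fn11 (11 ^ r) (11 ^ s)) (hF : F ∈ Wd11 d) :
    uMon 0 (1, 0, 1) F - (dY * dX : Module.End (ZMod 11) (Fn11 (11 ^ r) (11 ^ s))) F ∈
      Wd11 (d - 3) := by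
  obtain ⟨l1, l2, l3, l4, l5, l6, l7, l8, _⟩ := low0 r s
  obtain ⟨n1, n2, n3, n4, n5, n6, n7, n8, n9, n10⟩ := nfa r s
  have q2 := l4 _ _ 3 (by norm_num) (l1 _ _ _ _ n10 n7)
  have q3 := l4 _ _ 3 (by norm_num) (l1 _ _ _ _ n8 l7)
  have q4 := l2 _ _ _ q2 q3
  have e4 : (oB - 1) * (oA - 1 - dX) + (oB - 1 - dY) * dX =
      ((oB - 1) * (oA - 1) - dY * dX : Module.End (ZMod 11) (Fn11 (11 ^ r) (11 ^ s))) := by
    rw [mul_sub, sub_mul (oB - 1) dY dX]
    abel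
  rw [e4] at q4
  have m2 := q4 d F hF
  have hw : ∀ G : Fn11 (11 ^ r) (11 ^ s), oW 0 G = G := fun G => (trm (ZMod 11) r s G).2.1
  have e6 : uMon 0 (1, 0, 1) F - (dY * dX : Module.End (ZMod 11) (Fn11 (11 ^ r) (11 ^ s))) F =
      ((oB - 1) * (oA - 1) - dY * dX : Module.End (ZMod 11) (Fn11 (11 ^ r) (11 ^ s))) F := by
    rw [LinearMap.sub_apply]
    congr 1
    unfold uMon
    simp only [pow_zero, mul_one, pow_one]
    rw [mul_assoc]
    exact hw (((oB - 1) * (oA - 1) : Module.End (ZMod 11) (Fn11 (11 ^ r) (11 ^ s))) F)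
  rw [e6]
  exact m2

/-- Sums over `w` and `M13` with one nonzero block. -/
private theorem u_sum (S : Finset (ℕ × ℕ × ℕ)) (hS : S ⊆ M13) (c : Fin 10 → ℕ × ℕ × ℕ → ZMod 11)
    (hc : ∀ w t, w ≠ 0 ∨ t ∉ S → c w t = 0) :
    ∑ w, ∑ t ∈ M13, c w t • (uMon w t : Module.End (ZMod 11) (Fn11 (11 ^ r) (11 ^ s))) =
      ∑ t ∈ S, c 0 t • uMon 0 t := by
  rw [Finset.sum_eq_single (0 : Fin 10)]
  · refine (Finset.sum_subset hS fun t _ hn => ?_).symm
    rw [hc 0 t (Or.inr hn), zero_smul]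
  · intro w _ hw
    refine Finset.sum_eq_zero fun t _ => ?_
    rw [hc w t (Or.inl hw), zero_smul]
  · intro h
    exact absurd (Finset.mem_univ _) h

end ops

private theorem u_gd_app {L L' : List Tm} (h : ∀ t ∈ L, Gd t) (h' : ∀ t ∈ L', Gd t) :
    ∀ t ∈ L ++ L', Gd t := by
  intro t ht
  rcases List.mem_append.1 ht with h1 | h1
  · exact h t h1
  · exact h' t h1

private theorem u_gd_scl {L : List Tm} (n : ℤ) (h : ∀ t ∈ L, Gd t) : ∀ t ∈ sclL n L, Gd t := by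
  intro t ht
  unfold sclL at ht
  rw [List.mem_map] at ht
  obtain ⟨a, ha, rfl⟩ := ht
  exact h a ha

private theorem u_gd_mulL {L L' : List Tm} (h : ∀ t ∈ L, Gd t) (h' : ∀ t ∈ L', Gd t) :
    ∀ t ∈ mulL L L', Gd t := ((opm 0 0).1 L L' h h').1

private theorem u_gd_id (i f : Fin 3) : ∀ t ∈ id3 i f, Gd t := by
  intro t ht
  unfold id3 at ht
  split_ifs at ht
  · rw [List.mem_singleton] at ht
    subst ht
    exact ⟨by norm_num, by norm_num⟩
  · exact absurd ht (by simp)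

private theorem u_gd_mm {A B : Fin 3 → Fin 3 → List Tm} (hA : ∀ i f, ∀ t ∈ A i f, Gd t)
    (hB : ∀ i f, ∀ t ∈ B i f, Gd t) (i f : Fin 3) : ∀ t ∈ mm3 A B i f, Gd t := by
  unfold mm3
  exact u_gd_app (u_gd_app (u_gd_mulL (hA i 0) (hB 0 f)) (u_gd_mulL (hA i 1) (hB 1 f)))
    (u_gd_mulL (hA i 2) (hB 2 f))

private theorem u_gd_w (hg : TCeG) : ∀ ls : List ℕ, (∀ l ∈ ls, l ∈ PrM) →
    ∀ i f : Fin 3, ∀ t ∈ wL ls i f, Gd t
  | [], _ => fun i f => u_gd_id i f
  | [l], h => fun i f => hg.1 l (h l List.mem_cons_self) i f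
  | l :: l' :: ls, h => fun i f =>
      u_gd_mm (hg.1 l (h l List.mem_cons_self))
        (u_gd_w hg (l' :: ls) fun x hx => h x (List.mem_cons_of_mem _ hx)) i f

private theorem u_gd_c (hg : TCeG) (W : List (ℤ × List ℕ)) (hW : ∀ t ∈ W, ∀ l ∈ t.2, l ∈ PrM)
    (i f : Fin 3) : ∀ t ∈ cL W i f, Gd t := by
  intro t ht
  unfold cL at ht
  rw [List.mem_flatMap] at ht
  obtain ⟨a, ha, hb⟩ := ht
  exact u_gd_scl a.1 (u_gd_w hg a.2 (hW a ha) i f) t hb

/-- The lists for `U`. -/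
private theorem u_gdB (hg : TCeG) (i f : Fin 3) : ∀ t ∈ BUM i f, Gd t := by
  have b1 := (hg.2.1 i).2.1
  have b2 := (hg.2.1 f).1
  have hW : ∀ t ∈ UW, ∀ l ∈ t.2, l ∈ PrM := by decide
  unfold BUM
  exact u_gd_app (u_gd_c hg UW hW i f) (u_gd_scl _ (u_gd_mulL b1 b2))

/-- Module LdU. -/
theorem hLdU (hr : TRll) (hg : TCeG) (hc : TCeU) : TLdU := by
  intro r s d F hR hF i
  have hB := u_gdB hg
  -- modulo the relation
  have eU : ∑ f : Fin 3, opL (cL UW i f) (F f) = ∑ f : Fin 3, opL (BUM i f) (F f) := by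
    have h0 := u_mulrel hr F hR (mUM i) (hg.2.1 i).2.1 (fun f => (hg.2.1 f).1)
    have e : ∀ f : Fin 3, opL (BUM i f) (F f) = opL (cL UW i f) (F f) +
        opL (sclL (-1) (mulL (mUM i) (relM f))) (F f) := by
      intro f
      unfold BUM
      rw [(opm r s).2.2]
      rfl
    rw [Finset.sum_congr rfl fun f _ => e f, Finset.sum_add_distrib, h0, add_zero]
  -- the expansions
  have kU := fun f : Fin 3 => u_key (r := r) (s := s) (BUM i f) (hB i f) 3 (by norm_num)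
    (fun w t => ((if i = f ∧ w = 0 ∧ t = (1, 0, 1) then 1 else 0 : ℤ) : ZMod 11))
    (fun w t ht hw => u_cast (hc i f w t ht (by omega)))
  have e0 : ((3 : ℕ) : ℤ) = 3 := rfl
  -- every column
  have hcol : ∀ f : Fin 3, opL (BUM i f) (F f) - (if i = f then QoM (F f) else 0) ∈
      (Wd11 (d - 3) : Submodule (ZMod 11) (Fn11 (11 ^ r) (11 ^ s))) := by
    intro f
    have h := kU f
    by_cases hif : i = f
    · rw [u_sum {(1, 0, 1)} (by decide) _ (fun w t ht => by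
        rw [if_neg, Int.cast_zero]
        rintro ⟨-, h1, h2⟩
        rcases ht with h3 | h3
        · exact h3 h1
        · exact h3 (by rw [h2]; exact Finset.mem_singleton_self _)), Finset.sum_singleton,
        if_pos ⟨hif, rfl, rfl⟩] at h
      have h1 := h d (F f) (hF f)
      rw [e0] at h1
      have h2 := u_lead d (F f) (hF f)
      have e : opL (BUM i f) (F f) - (if i = f then QoM (F f) else 0) =
          (opL (BUM i f) - ((1 : ℤ) : ZMod 11) • uMon 0 (1, 0, 1) :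
            Module.End (ZMod 11) (Fn11 (11 ^ r) (11 ^ s))) (F f) +
          (uMon 0 (1, 0, 1) (F f) -
            (dY * dX : Module.End (ZMod 11) (Fn11 (11 ^ r) (11 ^ s))) (F f)) := by
        obtain ⟨-, -, -, -, -, -, -, -, hxy, _⟩ := low0 r s
        have hQ : (QoM : Module.End (ZMod 11) (Fn11 (11 ^ r) (11 ^ s))) (F f) =
            (dY * dX : Module.End (ZMod 11) (Fn11 (11 ^ r) (11 ^ s))) (F f) := by
          unfold QoM
          rw [hxy]
        rw [if_pos hif, hQ, LinearMap.sub_apply, LinearMap.smul_apply, Int.cast_one, one_smul]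
        abel
      rw [e]
      exact Submodule.add_mem _ h1 h2
    · rw [u_sum ∅ (by simp) _ (fun w t ht => by
        rw [if_neg, Int.cast_zero]
        rintro ⟨h1, -⟩
        exact hif h1), Finset.sum_empty, sub_zero] at h
      have h1 := h d (F f) (hF f)
      rw [e0] at h1
      rw [if_neg hif, sub_zero]
      exact h1
  have hs := Submodule.sum_mem (Wd11 (d - 3) : Submodule (ZMod 11) (Fn11 (11 ^ r) (11 ^ s)))
    (t := Finset.univ) (fun f _ => hcol f)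
  rw [Finset.sum_sub_distrib, Finset.sum_ite_eq, if_pos (Finset.mem_univ _), ← eU] at hs
  exact hs

end Pool.Agent.Helper34.P11
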